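import Mathlib
import Pool.Agent.Work.MP_610017_lc.Bd.B03

/-!
# Block WP: the weak pigeonhole principle in the model (MP_610017_lc). The counting lemma

In a set of worlds which is closed under the exchange of the outer part of the special sheet with
a free sheet, a tree of height `h` is evaluated correctly in almost all worlds.
-/

set_option autoImplicit false

namespace Pool.Agent.Work.MP_610017_lc.WP

/-- a world: labels and colours of the ordinary sheets -/
abbrev Wd (k n : ℕ) : Type := (Vx k → Equiv.Perm (Lb n)) × (Lb n → Bool)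

/-- the covering with the colours `spec` on the special sheet -/
def wG {k n : ℕ} (ω : Wd k n) : GW k n := ⟨ω.1, ω.2, spec⟩

open Classical in
/-- exchange of the special sheet and the sheet `j` outside `K` -/
noncomputable def exch {k n : ℕ} (K : Finset (Vx k)) (j : Lb n) (ω : Wd k n) : Wd k n :=
  (fun v => if v ∈ K then ω.1 v else ω.1 v * Equiv.swap 0 j, ω.2)

/-- the tree is evaluated correctly in the world -/
def Gd {k n : ℕ} (ω : Wd k n) (T : Tree k n) : Prop :=
  ∀ f ∈ (ev (wG ω) T).1, holds (wG ω) f

theorem exch_mem {k n : ℕ} {K : Finset (Vx k)} {v : Vx k} (hv : v ∈ K) (j : Lb n) (ω : Wd k n) :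
    (exch K j ω).1 v = ω.1 v := if_pos hv

theorem exch_not {k n : ℕ} {K : Finset (Vx k)} {v : Vx k} (hv : v ∉ K) (j : Lb n) (ω : Wd k n) :
    (exch K j ω).1 v = ω.1 v * Equiv.swap 0 j := if_neg hv

/-- labels of the other sheets are unchanged -/
theorem exch_app {k n : ℕ} (K : Finset (Vx k)) (j : Lb n) (ω : Wd k n) (v : Vx k) (i : Lb n)
    (h0 : i ≠ 0) (hj : i ≠ j) : (exch K j ω).1 v i = ω.1 v i := by
  by_cases hv : v ∈ K
  · rw [exch_mem hv]
  · rw [exch_not hv]
    show ω.1 v (Equiv.swap 0 j i) = ω.1 v i
    rw [Equiv.swap_apply_of_ne_of_ne h0 hj]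

/-- indices of the elements of the other sheets are unchanged -/
theorem exch_idx {k n : ℕ} (K : Finset (Vx k)) (j : Lb n) (ω : Wd k n) (v : Vx k) (a : Lb n)
    (h0 : (ω.1 v).symm a ≠ 0) (hj : (ω.1 v).symm a ≠ j) :
    ((exch K j ω).1 v).symm a = (ω.1 v).symm a := by
  rw [Equiv.symm_apply_eq, exch_app K j ω v _ h0 hj, Equiv.apply_symm_apply]

/-- the exchange is an involution -/
theorem exch_exch {k n : ℕ} (K : Finset (Vx k)) (j : Lb n) (ω : Wd k n) :
    exch K j (exch K j ω) = ω := by
  refine Prod.ext ?_ rfl
  funext v
  by_cases hv : v ∈ K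
  · rw [exch_mem hv, exch_mem hv]
  · rw [exch_not hv, exch_not hv, mul_assoc, Equiv.swap_mul_self, mul_one]

/-- the index of a special element outside `K` after the exchange -/
theorem exch_guess {k n : ℕ} (K : Finset (Vx k)) (j : Lb n) (ω : Wd k n) (v : Vx k) (a : Lb n)
    (hv : v ∉ K) (h0 : (ω.1 v).symm a = 0) : ((exch K j ω).1 v).symm a = j := by
  rw [exch_not hv, Reroute_symm, h0, Equiv.swap_apply_left]

/-- the answer to a query -/
def ans {k n : ℕ} (v : Vx k) (a : Lb n) (ω : Wd k n) : (Fin 4 → Lb n) × Bool :=
  (fun d => ω.1 (nb v d) ((ω.1 v).symm a),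
    bd v && (if (ω.1 v).symm a = 0 then (spec v).getD false else ω.2 ((ω.1 v).symm a)))

/-- the first query is answered correctly unless it is special and far away -/
theorem Gd_node {k n : ℕ} (v : Vx k) (a : Lb n) (next : (Fin 4 → Lb n) → Bool → Tree k n)
    (ω : Wd k n) (h : (ω.1 v).symm a ≠ 0 ∨ LE_L v < k)
    (hg : Gd ω (next (ans v a ω).1 (ans v a ω).2)) : Gd ω (.node v a next) := by
  intro f hf
  rcases Finset.mem_union.1 hf with hf | hf
  · rcases (Ev_star _ _ _ _ _).1 hf with ⟨d, rfl⟩ | ⟨d, rfl⟩ | ⟨hb, rfl⟩
    · change (ω.1 v).symm a = (ω.1 (nb v d)).symm (ω.1 (nb v d) ((ω.1 v).symm a))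
      rw [Equiv.symm_apply_apply]
    · change (ω.1 (nb v d)).symm (ω.1 (nb v d) ((ω.1 v).symm a)) = (ω.1 v).symm a
      rw [Equiv.symm_apply_apply]
    · change if (ω.1 v).symm a = 0 then
        spec v = some (bd v && (if (ω.1 v).symm a = 0 then (spec v).getD false
          else ω.2 ((ω.1 v).symm a)))
        else ω.2 ((ω.1 v).symm a) = (bd v && (if (ω.1 v).symm a = 0 then (spec v).getD false
          else ω.2 ((ω.1 v).symm a)))
      rw [hb, Bool.true_and]
      by_cases h0 : (ω.1 v).symm a = 0
      · rw [if_pos h0, if_pos h0]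
        have hk : LE_L v < k := h.resolve_left (fun h1 => h1 h0)
        have hs : (spec v).isSome = true := by
          simp only [bd, decide_eq_true_eq] at hb
          unfold LE_L at hk
          unfold spec
          by_cases h3 : v.2.val = 0
          · have h4 : v.2.val = 0 ∧ 1 ≤ v.1.val ∧ v.1.val < k := by omega
            rw [if_pos h4]; rfl
          · have h4 : ¬ (v.2.val = 0 ∧ 1 ≤ v.1.val ∧ v.1.val < k) := by omega
            have h5 : v.1.val = 0 ∧ 1 ≤ v.2.val ∧ v.2.val < k := by omega
            rw [if_neg h4, if_pos h5]; rfl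
        obtain ⟨x, hx⟩ := Option.isSome_iff_exists.1 hs
        rw [hx]; rfl
      · rw [if_neg h0, if_neg h0]
  · exact hg f hf

open Classical in
/-- The counting lemma. -/
theorem cnt {k n : ℕ} (I : Finset (Lb n)) (c : ℕ) (T : Tree k n) :
    ∀ (h u r : ℕ) (K : Finset (Vx k)) (Ω : Finset (Wd k n)) (U : Wd k n → Finset (Lb n)),
    HLe h T → (∀ v ∈ K, LE_L v ≤ r) → r + h < k → (∀ ω ∈ Ω, (U ω).card ≤ u) →
    (∀ K', K ⊆ K' → ∀ ω ∈ Ω, ∀ j ∈ I, j ≠ 0 → j ∉ U ω → exch K' j ω ∈ Ω) →
    c + u + h + 1 ≤ I.card →
    (Ω.filter (fun ω => ¬ Gd ω T)).card * c ≤ h * Ω.card := by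
  induction T with
  | leaf b =>
    intro h u r K Ω U _ _ _ _ _ _
    have h1 : Ω.filter (fun ω => ¬ Gd ω (.leaf b)) = ∅ := by
      refine Finset.filter_eq_empty_iff.2 fun ω _ => ?_
      rw [not_not]
      intro f hf
      exact absurd hf (Finset.notMem_empty f)
    rw [h1, Finset.card_empty, Nat.zero_mul]
    exact Nat.zero_le _
  | node v a next ih =>
    intro h u r K Ω U hT hK hk hU hex hc
    obtain _ | h := h
    · exact absurd hT (by simp [HLe])
    have hT' : ∀ b c, HLe h (next b c) := hT
    -- the three parts
    set G := Ω.filter (fun ω => (ω.1 v).symm a = 0 ∧ v ∉ K) with hG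
    set S := Ω.filter (fun ω => (ω.1 v).symm a = 0 ∧ v ∈ K) with hS
    set O := Ω.filter (fun ω => (ω.1 v).symm a ≠ 0) with hO
    have hcard : G.card + S.card + O.card = Ω.card := by
      have e1 : Ω.card = (Ω.filter (fun ω => (ω.1 v).symm a = 0)).card + O.card := by
        rw [hO]
        exact (Finset.card_filter_add_card_filter_not _).symm
      by_cases hv : v ∈ K
      · have e2 : G = ∅ := by
          rw [hG]; exact Finset.filter_eq_empty_iff.2 fun ω _ h => h.2 hv
        have e3 : S = Ω.filter (fun ω => (ω.1 v).symm a = 0) := by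
          rw [hS]; exact Finset.filter_congr fun ω _ => by simp [hv]
        rw [e2, e3, Finset.card_empty, e1, Nat.zero_add]
      · have e2 : S = ∅ := by
          rw [hS]; exact Finset.filter_eq_empty_iff.2 fun ω _ h => hv h.2
        have e3 : G = Ω.filter (fun ω => (ω.1 v).symm a = 0) := by
          rw [hG]; exact Finset.filter_congr fun ω _ => by simp [hv]
        rw [e2, e3, Finset.card_empty, e1, Nat.add_zero]
    -- the guesses
    have hGc : G.card * c ≤ Ω.card := by
      have h1 : (G.sigma fun ω => I \ insert 0 (U ω)).card ≤ Ω.card := by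
        refine Finset.card_le_card_of_injOn (fun p => exch K p.2 p.1) ?_ ?_
        · intro p hp
          obtain ⟨h2, h3⟩ := Finset.mem_sigma.1 (Finset.mem_coe.1 hp)
          rw [Finset.mem_sdiff, Finset.mem_insert, not_or] at h3
          exact Finset.mem_coe.2 (hex K (Finset.Subset.refl _) p.1 (Finset.mem_filter.1 h2).1 p.2
            h3.1 h3.2.1 h3.2.2)
        · intro p hp q hq hpq
          obtain ⟨h2, h3⟩ := Finset.mem_sigma.1 (Finset.mem_coe.1 hp)
          obtain ⟨h4, h5⟩ := Finset.mem_sigma.1 (Finset.mem_coe.1 hq)
          have h6 := (Finset.mem_filter.1 h2).2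
          have h7 := (Finset.mem_filter.1 h4).2
          have hpq' : exch K p.2 p.1 = exch K q.2 q.1 := hpq
          have h8 : p.2 = q.2 := by
            rw [← exch_guess K p.2 p.1 v a h6.2 h6.1, ← exch_guess K q.2 q.1 v a h7.2 h7.1, hpq']
          have h9 : p.1 = q.1 := by
            rw [← exch_exch K p.2 p.1, hpq', h8, exch_exch]
          exact Sigma.ext h9 (heq_of_eq h8)
      have h2 : G.card * c ≤ (G.sigma fun ω => I \ insert 0 (U ω)).card := by
        rw [Finset.card_sigma]
        calc G.card * c = ∑ _ω ∈ G, c := by rw [Finset.sum_const, smul_eq_mul]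
          _ ≤ _ := by
            refine Finset.sum_le_sum fun ω hω => ?_
            have h3 := hU ω (Finset.mem_filter.1 hω).1
            have h4 := Finset.card_insert_le (0 : Lb n) (U ω)
            have h5 := Finset.le_card_sdiff (insert 0 (U ω)) I
            omega
      exact h2.trans h1
    -- the known special elements
    have hSc : (S.filter (fun ω => ¬ Gd ω (.node v a next))).card * c ≤ h * S.card := by
      by_cases hv : v ∈ K
      · set K1 : Finset (Vx k) := K ∪ Finset.univ.image (nb v) with hK1
        have hfib : ∀ t : (Fin 4 → Lb n) × Bool,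
            ((S.filter fun ω => ans v a ω = t).filter
              (fun ω => ¬ Gd ω (next t.1 t.2))).card * c ≤
            h * (S.filter fun ω => ans v a ω = t).card := by
          intro t
          refine ih t.1 t.2 h u (r + 1) K1 _ U (hT' _ _) ?_ (by omega) ?_ ?_ (by omega)
          · intro w hw
            rcases Finset.mem_union.1 hw with hw | hw
            · exact (hK w hw).trans (Nat.le_succ _)
            · obtain ⟨d, -, rfl⟩ := Finset.mem_image.1 hw
              have h1 := (prf_NbLevel k v d).2.1
              have h2 := hK v hv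
              unfold LE_L at *
              omega
          · intro ω hω
            exact hU ω (Finset.mem_filter.1 (Finset.mem_filter.1 hω).1).1
          · intro K' hK' ω hω j hj hj0 hjU
            obtain ⟨hω1, hω2⟩ := Finset.mem_filter.1 hω
            obtain ⟨hω3, hω4⟩ := Finset.mem_filter.1 hω1
            have hvK' : v ∈ K' := hK' (Finset.mem_union_left _ hv)
            have hi : ((exch K' j ω).1 v).symm a = 0 := by rw [exch_mem hvK', hω4.1]
            refine Finset.mem_filter.2 ⟨Finset.mem_filter.2 ⟨hex K'
              (Finset.subset_union_left.trans hK') ω hω3 j hj hj0 hjU, hi, hv⟩, ?_⟩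
            rw [← hω2]
            unfold ans
            rw [hi, hω4.1]
            refine Prod.ext ?_ rfl
            funext d
            show (exch K' j ω).1 (nb v d) 0 = ω.1 (nb v d) 0
            rw [exch_mem (hK' (Finset.mem_union_right _ (Finset.mem_image_of_mem _
              (Finset.mem_univ d))))]
        have hsub : ∀ t : (Fin 4 → Lb n) × Bool,
            ((S.filter (fun ω => ¬ Gd ω (.node v a next))).filter fun ω => ans v a ω = t) ⊆
            ((S.filter fun ω => ans v a ω = t).filter (fun ω => ¬ Gd ω (next t.1 t.2))) := by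
          intro t ω hω
          obtain ⟨h1, h2⟩ := Finset.mem_filter.1 hω
          obtain ⟨h3, h4⟩ := Finset.mem_filter.1 h1
          refine Finset.mem_filter.2 ⟨Finset.mem_filter.2 ⟨h3, h2⟩, fun h5 => h4 ?_⟩
          rw [← h2] at h5
          refine Gd_node v a next ω (Or.inr ?_) h5
          have := hK v hv
          omega
        calc (S.filter (fun ω => ¬ Gd ω (.node v a next))).card * c
            = (∑ t : (Fin 4 → Lb n) × Bool, ((S.filter (fun ω => ¬ Gd ω (.node v a next))).filter
                fun ω => ans v a ω = t).card) * c := by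
              rw [Finset.card_eq_sum_card_fiberwise (f := ans v a) (t := Finset.univ)
                (fun _ _ => Finset.mem_coe.2 (Finset.mem_univ _))]
          _ ≤ ∑ t : (Fin 4 → Lb n) × Bool, h * (S.filter fun ω => ans v a ω = t).card := by
              rw [Finset.sum_mul]
              exact Finset.sum_le_sum fun t _ =>
                (Nat.mul_le_mul_right _ (Finset.card_le_card (hsub t))).trans (hfib t)
          _ = h * S.card := by
              rw [← Finset.mul_sum, ← Finset.card_eq_sum_card_fiberwise (f := ans v a)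
                (t := Finset.univ) (fun _ _ => Finset.mem_coe.2 (Finset.mem_univ _))]
      · have e2 : S = ∅ := by
          rw [hS]; exact Finset.filter_eq_empty_iff.2 fun ω _ h => hv h.2
        rw [e2, Finset.filter_empty, Finset.card_empty, Nat.zero_mul]
        exact Nat.zero_le _
    -- the ordinary elements
    have hOc : (O.filter (fun ω => ¬ Gd ω (.node v a next))).card * c ≤ h * O.card := by
      have hfib : ∀ t : (Fin 4 → Lb n) × Bool,
          ((O.filter fun ω => ans v a ω = t).filter
            (fun ω => ¬ Gd ω (next t.1 t.2))).card * c ≤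
          h * (O.filter fun ω => ans v a ω = t).card := by
        intro t
        refine ih t.1 t.2 h (u + 1) r K _ (fun ω => insert ((ω.1 v).symm a) (U ω)) (hT' _ _) hK
          (by omega) ?_ ?_ (by omega)
        · intro ω hω
          have h1 := hU ω (Finset.mem_filter.1 (Finset.mem_filter.1 hω).1).1
          exact (Finset.card_insert_le _ _).trans (by omega)
        · intro K' hK' ω hω j hj hj0 hjU
          obtain ⟨hω1, hω2⟩ := Finset.mem_filter.1 hω
          obtain ⟨hω3, hω4⟩ := Finset.mem_filter.1 hω1
          rw [Finset.mem_insert, not_or] at hjU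
          have hne : (ω.1 v).symm a ≠ j := fun h => hjU.1 h.symm
          have hi : ((exch K' j ω).1 v).symm a = (ω.1 v).symm a := exch_idx K' j ω v a hω4 hne
          refine Finset.mem_filter.2 ⟨Finset.mem_filter.2 ⟨hex K' hK' ω hω3 j hj hj0 hjU.2, ?_⟩,
            ?_⟩
          · rw [hi]; exact hω4
          · rw [← hω2]
            unfold ans
            rw [hi]
            refine Prod.ext ?_ rfl
            funext d
            exact exch_app K' j ω (nb v d) _ hω4 hne
      have hsub : ∀ t : (Fin 4 → Lb n) × Bool,
          ((O.filter (fun ω => ¬ Gd ω (.node v a next))).filter fun ω => ans v a ω = t) ⊆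
          ((O.filter fun ω => ans v a ω = t).filter (fun ω => ¬ Gd ω (next t.1 t.2))) := by
        intro t ω hω
        obtain ⟨h1, h2⟩ := Finset.mem_filter.1 hω
        obtain ⟨h3, h4⟩ := Finset.mem_filter.1 h1
        refine Finset.mem_filter.2 ⟨Finset.mem_filter.2 ⟨h3, h2⟩, fun h5 => h4 ?_⟩
        rw [← h2] at h5
        exact Gd_node v a next ω (Or.inl (Finset.mem_filter.1 h3).2) h5
      calc (O.filter (fun ω => ¬ Gd ω (.node v a next))).card * c
          = (∑ t : (Fin 4 → Lb n) × Bool, ((O.filter (fun ω => ¬ Gd ω (.node v a next))).filter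
              fun ω => ans v a ω = t).card) * c := by
            rw [Finset.card_eq_sum_card_fiberwise (f := ans v a) (t := Finset.univ)
              (fun _ _ => Finset.mem_coe.2 (Finset.mem_univ _))]
        _ ≤ ∑ t : (Fin 4 → Lb n) × Bool, h * (O.filter fun ω => ans v a ω = t).card := by
            rw [Finset.sum_mul]
            exact Finset.sum_le_sum fun t _ =>
              (Nat.mul_le_mul_right _ (Finset.card_le_card (hsub t))).trans (hfib t)
        _ = h * O.card := by
            rw [← Finset.mul_sum, ← Finset.card_eq_sum_card_fiberwise (f := ans v a)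
              (t := Finset.univ) (fun _ _ => Finset.mem_coe.2 (Finset.mem_univ _))]
    -- together
    have hsub : Ω.filter (fun ω => ¬ Gd ω (.node v a next)) ⊆
        G ∪ (S.filter (fun ω => ¬ Gd ω (.node v a next)) ∪
          O.filter (fun ω => ¬ Gd ω (.node v a next))) := by
      intro ω hω
      obtain ⟨h1, h2⟩ := Finset.mem_filter.1 hω
      by_cases h0 : (ω.1 v).symm a = 0
      · by_cases hv : v ∈ K
        · exact Finset.mem_union_right _ (Finset.mem_union_left _ (Finset.mem_filter.2
            ⟨Finset.mem_filter.2 ⟨h1, h0, hv⟩, h2⟩))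
        · exact Finset.mem_union_left _ (Finset.mem_filter.2 ⟨h1, h0, hv⟩)
      · exact Finset.mem_union_right _ (Finset.mem_union_right _ (Finset.mem_filter.2
          ⟨Finset.mem_filter.2 ⟨h1, h0⟩, h2⟩))
    have h1 := Finset.card_le_card hsub
    have h2 := Finset.card_union_le G (S.filter (fun ω => ¬ Gd ω (.node v a next)) ∪
          O.filter (fun ω => ¬ Gd ω (.node v a next)))
    have h3 := Finset.card_union_le (S.filter (fun ω => ¬ Gd ω (.node v a next)))
          (O.filter (fun ω => ¬ Gd ω (.node v a next)))
    calc (Ω.filter (fun ω => ¬ Gd ω (.node v a next))).card * c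
        ≤ (G.card + ((S.filter (fun ω => ¬ Gd ω (.node v a next))).card +
            (O.filter (fun ω => ¬ Gd ω (.node v a next))).card)) * c :=
          Nat.mul_le_mul_right _ (by omega)
      _ = G.card * c + ((S.filter (fun ω => ¬ Gd ω (.node v a next))).card * c +
            (O.filter (fun ω => ¬ Gd ω (.node v a next))).card * c) := by ring
      _ ≤ Ω.card + (h * S.card + h * O.card) := by omega
      _ ≤ Ω.card + h * Ω.card := by
          have : h * S.card + h * O.card = h * (S.card + O.card) := by ring
          rw [this]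
          have h4 : h * (S.card + O.card) ≤ h * Ω.card := Nat.mul_le_mul_left _ (by omega)
          omega
      _ = (h + 1) * Ω.card := by ring

end Pool.Agent.Work.MP_610017_lc.WP
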