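import Mathlib
import Pool.Agent.Work.MP_610017_lc.WP.Cnt

/-!
# Block WP: a world in which more than half of the trees are evaluated correctly (MP_610017_lc)
-/

set_option autoImplicit false

namespace Pool.Agent.Work.MP_610017_lc.WP

/-- the world is an extension of `ρ` in which the facts of `F` are true, and the facts of `F` meet
the special sheet only inside the box of radius `d` -/
structure Adm {k n : ℕ} (ρ : Res k n) (F : Finset (Fact k n)) (d : ℕ) (ω : Wd k n) : Prop where
  ext : Ext ρ ω.1 ω.2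
  tru : ∀ f ∈ F, holds (wG ω) f
  box : ∀ f ∈ F, ∀ v a, (v, a) ∈ touch f → (ω.1 v).symm a = 0 → LE_L v ≤ d

/-- facts which are true in the coverings `gw ρ N` and `gw ρ N'` are true in an admissible world -/
theorem adm_exists {k n : ℕ} (ρ : Res k n) (N N' : ℕ) (F : Finset (Fact k n))
    (hV : ∀ f ∈ F, Valid f) (h1 : ∀ f ∈ F, holds (gw ρ N) f) (h2 : ∀ f ∈ F, holds (gw ρ N') f)
    (hN : N + F.card + 1 ≤ N') (hk : N' < k) (hI : F.card + 2 ≤ ρ.I.card) :
    ∃ ω, Adm ρ F N' ω := by
  obtain ⟨d, hd1, hd2, hd3⟩ := LE_cut F N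
  obtain ⟨s0, hs1, hs2, hs3⟩ := LE_sheet ρ F hI
  have hdN : d ≤ N' := by omega
  let s : Vx k → Lb n := fun u => if LE_L u ≤ d then 0 else s0
  have hsv : ∀ u, s u = 0 ∨ s u = s0 := by
    intro u
    show (if LE_L u ≤ d then 0 else s0) = 0 ∨ (if LE_L u ≤ d then 0 else s0) = s0
    split_ifs
    · exact Or.inl rfl
    · exact Or.inr rfl
  have hs_le : ∀ u, LE_L u ≤ d → s u = 0 := fun u hu => if_pos hu
  have hs_gt : ∀ u, ¬ LE_L u ≤ d → s u = s0 := fun u hu => if_neg hu
  have hne0 : ∀ f ∈ F, ∀ v a, (v, a) ∈ touch f → (ρ.β v).symm a ≠ s0 := by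
    intro f hf v a hva h
    have hi := LE_touch (gw ρ N) f (h1 f hf) v a hva
    apply hs3
    rw [Finset.mem_image]
    exact ⟨f, hf, by rw [← h]; exact hi.symm⟩
  have hres := prf_Reroute k n (gw ρ N) F s (Function.update ρ.ζ s0 false) spec h1 ?_ ?_ ?_
  · refine ⟨(fun v => ρ.β v * Equiv.swap 0 (s v), Function.update ρ.ζ s0 false),
      ⟨?_, ?_, ?_⟩, hres, ?_⟩
    · intro v i hi
      have hi0 : i ≠ 0 := fun h => hi (h ▸ ρ.zero_mem)
      have his : i ≠ s0 := fun h => hi (h ▸ hs1)
      have his' : i ≠ s v := by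
        rcases hsv v with h | h <;> rw [h] <;> assumption
      show ρ.β v (Equiv.swap 0 (s v) i) = ρ.β v i
      rw [Equiv.swap_apply_of_ne_of_ne hi0 his']
    · intro i hi
      have his : i ≠ s0 := fun h => hi (h ▸ hs1)
      exact Function.update_of_ne his _ _
    · have h0 : s (crn k) = 0 := hs_le _ (by simp [LE_L, crn])
      show ρ.β (crn k) (Equiv.swap 0 (s (crn k)) 0) = 0
      rw [h0, Equiv.swap_self]
      exact ρ.corner
    · intro f hf v a hva h0
      by_contra hv
      have hv' : ¬ LE_L v ≤ d := fun h => hv (h.trans hdN)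
      have h3 : (ρ.β v * Equiv.swap 0 (s v)).symm a = 0 := h0
      rw [Reroute_symm, hs_gt v hv'] at h3
      refine hne0 f hf v a hva ?_
      have h4 := congrArg (Equiv.swap 0 s0) h3
      rw [Equiv.swap_apply_self, Equiv.swap_apply_left] at h4
      exact h4
  · -- elements which are not on the special sheet
    intro f hf v a hva h0
    have hne : ((gw ρ N).β v).symm a ≠ s0 := hne0 f hf v a hva
    refine ⟨fun u => ?_, Function.update_of_ne hne _ _⟩
    rcases hsv u with h | h <;> rw [h] <;> assumption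
  · -- edges
    intro v w a b hf h0
    have hc := LE_cross prf_NbLevel F hV d hd3 v w a b hf
    by_cases hv : LE_L v ≤ d
    · rw [hs_le v hv, hs_le w (hc.1 hv)]
    · rw [hs_gt v hv, hs_gt w (fun h => hv (hc.2 h))]
  · -- colours
    intro v a c hf h0
    have hb : bd v = true := hV _ hf
    have g1 := h1 _ hf
    have g2 := h2 _ hf
    have h0' : (ρ.β v).symm a = 0 := h0
    simp only [holds, gw, h0', if_true, Option.some.injEq] at g1 g2
    simp only [bd, decide_eq_true_eq] at hb
    obtain ⟨hb1, hb2⟩ := hb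
    constructor
    · intro hs
      have hv : LE_L v ≤ d := by
        by_contra hv
        rw [hs_gt v hv] at hs
        exact hs2 hs
      unfold LE_L at hv
      unfold spec
      by_cases h3 : v.2.val = 0
      · have h4 : v.2.val = 0 ∧ 1 ≤ v.1.val ∧ v.1.val < k := by omega
        rw [if_pos h4]
        rw [← g2]
        congr 1
        rw [eq_comm, decide_eq_true_eq]
        omega
      · have h4 : ¬ (v.2.val = 0 ∧ 1 ≤ v.1.val ∧ v.1.val < k) := by omega
        have h5 : v.1.val = 0 ∧ 1 ≤ v.2.val ∧ v.2.val < k := by omega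
        rw [if_neg h4, if_pos h5]
        rw [← g2]
        congr 1
        rw [eq_comm, decide_eq_false_iff_not]
        omega
    · intro hs
      have hv : ¬ LE_L v ≤ d := fun hv => hs (hs_le v hv)
      rw [hs_gt v hv, Function.update_self, ← g1, eq_comm, decide_eq_false_iff_not]
      unfold LE_L at hv
      omega

open Classical in
/-- the admissible worlds are closed under exchanges outside the box -/
theorem adm_exch {k n : ℕ} {ρ : Res k n} {F : Finset (Fact k n)} {d : ℕ} {ω : Wd k n}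
    (hω : Adm ρ F d ω) (K' : Finset (Vx k)) (hK' : ∀ v, LE_L v ≤ d → v ∈ K') (j : Lb n)
    (hj : j ∈ ρ.I) (hj0 : j ≠ 0) (hjU : j ∉ F.image (LE_i ω.1)) : Adm ρ F d (exch K' j ω) := by
  have hne : ∀ f ∈ F, ∀ v a, (v, a) ∈ touch f → (ω.1 v).symm a ≠ j := by
    intro f hf v a hva h
    have hi := LE_touch (wG ω) f (hω.tru f hf) v a hva
    apply hjU
    rw [Finset.mem_image]
    exact ⟨f, hf, by rw [← h]; exact hi.symm⟩
  have hE : exch K' j ω = (fun v => ω.1 v * Equiv.swap 0 (if v ∈ K' then 0 else j), ω.2) := by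
    refine Prod.ext ?_ rfl
    funext v
    by_cases hv : v ∈ K'
    · rw [exch_mem hv]
      show ω.1 v = ω.1 v * Equiv.swap 0 (if v ∈ K' then 0 else j)
      rw [if_pos hv, Equiv.swap_self]
      rfl
    · rw [exch_not hv]
      show _ = ω.1 v * Equiv.swap 0 (if v ∈ K' then 0 else j)
      rw [if_neg hv]
  refine ⟨⟨fun v i hi => ?_, fun i hi => hω.ext.zeta i hi, ?_⟩, ?_, ?_⟩
  · rw [exch_app K' j ω v i (fun h => hi (h ▸ ρ.zero_mem)) (fun h => hi (h ▸ hj))]
    exact hω.ext.beta v i hi
  · rw [exch_mem (hK' _ (by simp [LE_L, crn]))]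
    exact hω.ext.corner
  · have h := prf_Reroute k n (wG ω) F (fun v => if v ∈ K' then 0 else j) ω.2 spec hω.tru
      ?_ ?_ ?_
    · rw [hE]
      exact h
    · intro f hf v a hva h0
      refine ⟨fun u => ?_, rfl⟩
      show (ω.1 v).symm a ≠ if u ∈ K' then 0 else j
      by_cases hu : u ∈ K'
      · rw [if_pos hu]; exact h0
      · rw [if_neg hu]; exact hne f hf v a hva
    · intro v w a b hf h0
      have h0' : (ω.1 v).symm a = 0 := h0
      have h1 : (ω.1 v).symm a = (ω.1 w).symm b := hω.tru _ hf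
      have hv := hK' v (hω.box _ hf v a (by simp [touch]) h0')
      have hw := hK' w (hω.box _ hf w b (by simp [touch]) (by rw [← h1, h0']))
      simp [hv, hw]
    · intro v a c hf h0
      have h0' : (ω.1 v).symm a = 0 := h0
      have hv := hK' v (hω.box _ hf v a (by simp [touch]) h0')
      have h1 := hω.tru _ hf
      simp only [holds, wG, h0', if_true] at h1
      refine ⟨fun _ => h1, fun h => absurd ?_ h⟩
      simp [hv]
  · intro f hf v a hva h0
    by_cases hv : v ∈ K'
    · rw [exch_mem hv] at h0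
      exact hω.box f hf v a hva h0
    · exfalso
      rw [exch_not hv, Reroute_symm] at h0
      refine hne f hf v a hva ?_
      have h4 := congrArg (Equiv.swap 0 j) h0
      rw [Equiv.swap_apply_self, Equiv.swap_apply_left] at h4
      exact h4

open Classical in
/-- an admissible world in which more than half of the trees are evaluated correctly -/
theorem world_half {k n : ℕ} (ρ : Res k n) (F : Finset (Fact k n)) (d h a : ℕ)
    (E : ℕ → Tree k n) (hE : ∀ x, x ≤ 2 * a + 1 → HLe h (E x)) (hA : ∃ ω, Adm ρ F d ω)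
    (hd : d + h < k) (hI : F.card + 3 * h + 2 ≤ ρ.I.card) :
    ∃ ω : Wd k n, Adm ρ F d ω ∧
      a + 1 < ((Finset.range (2 * a + 2)).filter (fun x => Gd ω (E x))).card := by
  set Ω : Finset (Wd k n) := Finset.univ.filter (fun ω => Adm ρ F d ω) with hΩ
  have hpos : 0 < Ω.card := by
    obtain ⟨ω, hω⟩ := hA
    exact Finset.card_pos.2 ⟨ω, Finset.mem_filter.2 ⟨Finset.mem_univ _, hω⟩⟩
  have hone : ∀ x ∈ Finset.range (2 * a + 2),
      (Ω.filter (fun ω => ¬ Gd ω (E x))).card * (2 * h + 1) ≤ h * Ω.card := by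
    intro x hx
    refine cnt ρ.I (2 * h + 1) (E x) h F.card d (Finset.univ.filter fun v => LE_L v ≤ d) Ω
      (fun ω => F.image (LE_i ω.1)) (hE x (by have := Finset.mem_range.1 hx; omega))
      (fun v hv => (Finset.mem_filter.1 hv).2) hd (fun ω _ => Finset.card_image_le) ?_
      (by omega)
    intro K' hK' ω hω j hj hj0 hjU
    refine Finset.mem_filter.2 ⟨Finset.mem_univ _, adm_exch (Finset.mem_filter.1 hω).2 K' ?_ j
      hj hj0 hjU⟩
    intro v hv
    exact hK' (Finset.mem_filter.2 ⟨Finset.mem_univ _, hv⟩)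
  -- double counting
  have hsum : ∑ ω ∈ Ω, ((Finset.range (2 * a + 2)).filter (fun x => ¬ Gd ω (E x))).card =
      ∑ x ∈ Finset.range (2 * a + 2), (Ω.filter (fun ω => ¬ Gd ω (E x))).card := by
    simp only [Finset.card_filter]
    exact Finset.sum_comm
  by_contra hcon
  push Not at hcon
  have hbad : ∀ ω ∈ Ω, a + 1 ≤
      ((Finset.range (2 * a + 2)).filter (fun x => ¬ Gd ω (E x))).card := by
    intro ω hω
    have h1 := hcon ω (Finset.mem_filter.1 hω).2
    have h2 := Finset.card_filter_add_card_filter_not (s := Finset.range (2 * a + 2))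
      (fun x => Gd ω (E x))
    rw [Finset.card_range] at h2
    omega
  have h1 : Ω.card * (a + 1) ≤
      ∑ ω ∈ Ω, ((Finset.range (2 * a + 2)).filter (fun x => ¬ Gd ω (E x))).card := by
    calc Ω.card * (a + 1) = ∑ _ω ∈ Ω, (a + 1) := by rw [Finset.sum_const, smul_eq_mul]
      _ ≤ _ := Finset.sum_le_sum hbad
  have h2 : (∑ x ∈ Finset.range (2 * a + 2), (Ω.filter (fun ω => ¬ Gd ω (E x))).card) *
      (2 * h + 1) ≤ (2 * a + 2) * (h * Ω.card) := by
    rw [Finset.sum_mul]
    calc ∑ x ∈ Finset.range (2 * a + 2), (Ω.filter (fun ω => ¬ Gd ω (E x))).card * (2 * h + 1)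
        ≤ ∑ _x ∈ Finset.range (2 * a + 2), h * Ω.card := Finset.sum_le_sum hone
      _ = _ := by rw [Finset.sum_const, smul_eq_mul, Finset.card_range]
  rw [hsum] at h1
  have h3 : Ω.card * (a + 1) * (2 * h + 1) ≤ (2 * a + 2) * (h * Ω.card) :=
    (Nat.mul_le_mul_right _ h1).trans h2
  have h4 : Ω.card * (a + 1) * (2 * h + 1) = (2 * a + 2) * (h * Ω.card) + Ω.card * (a + 1) := by
    ring
  have h5 : 0 < Ω.card * (a + 1) := Nat.mul_pos hpos (Nat.succ_pos _)
  omega

end Pool.Agent.Work.MP_610017_lc.WP
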