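import Mathlib
import Pool.Agent.Work.MP_610017_lc.WP.Agree

/-!
# Block WP: the finite form of the weak pigeonhole principle (MP_610017_lc)
-/

set_option autoImplicit false

namespace Pool.Agent.Work.MP_610017_lc.WP

/-- The finite form: trees `T x y` for a total relation without collisions do not exist. -/
theorem finW {k n h a d : ℕ} (ρ : Res k n) (T : ℕ → ℕ → Tree k n) (E : ℕ → Tree k n)
    (Nt : Tree k n) (F0 F1 : Finset (Fact k n))
    (hE : ∀ x, x ≤ 2 * a + 1 → OrRep ρ h a (T x) (E x))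
    (hN : OrRep ρ h (2 * a + 1) (fun x => (E x).flip) Nt) (hF1 : Br Nt F1 false)
    (hF0 : ∀ x x' y, x ≤ 2 * a + 1 → x' ≤ 2 * a + 1 → x ≠ x' → y ≤ a → ∀ P P',
      Br (T x y) P true → Br (T x' y) P' true → ¬ Con ρ (F0 ∪ P ∪ P'))
    (hA : ∃ ω, Adm ρ (F0 ∪ F1) d ω) (hd : d + h < k)
    (hI : (F0 ∪ F1).card + 3 * h + 2 ≤ ρ.I.card) : False := by
  classical
  obtain ⟨ω, hω, hcard⟩ := world_half ρ (F0 ∪ F1) d h a E (fun x hx => (hE x hx).1) hA hd hI
  have w0 : ∀ f ∈ F0, holds (wG ω) f := fun f hf => hω.tru f (Finset.mem_union_left _ hf)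
  have w1 : ∀ f ∈ F1, holds (wG ω) f := fun f hf => hω.tru f (Finset.mem_union_right _ hf)
  have hext : Ext ρ (wG ω).β (wG ω).ζ := hω.ext
  -- the values
  have hval : ∀ x ∈ (Finset.range (2 * a + 2)).filter (fun x => Gd ω (E x)),
      ∃ y, y ≤ a ∧ ∃ P, Br (T x y) P true ∧ ∀ f ∈ P, holds (wG ω) f := by
    intro x hx
    obtain ⟨hx1, hx2⟩ := Finset.mem_filter.1 hx
    have hx3 : x ≤ 2 * a + 1 := by have := Finset.mem_range.1 hx1; omega
    have hb := (prf_Ev k n (wG ω) (E x)).1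
    have hr : (ev (wG ω) (E x)).2 = true := by
      by_contra hr
      have hr' : (ev (wG ω) (E x)).2 = false := by simpa using hr
      rw [hr'] at hb
      have h1 : Br (E x).flip (ev (wG ω) (E x)).1 true := by
        rw [(prf_BrFlip k n (E x)).1]
        exact hb
      exact hN.2.2 F1 hF1 x hx3 _ h1 (con_union hext rfl w1 hx2)
    rw [hr] at hb
    obtain ⟨y, hy, P, hP, hd⟩ := (hE x hx3).2.1 _ hb ⟨wG ω, hext, rfl, hx2⟩
    exact ⟨y, hy, P, hP, dec_holds hext hx2 hd⟩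
  choose! y hy P hP hPh using hval
  have hmap : ∀ x ∈ (Finset.range (2 * a + 2)).filter (fun x => Gd ω (E x)),
      y x ∈ Finset.range (a + 1) := fun x hx => Finset.mem_range.2 (Nat.lt_succ_of_le (hy x hx))
  obtain ⟨x, hx, x', hx', hne, heq⟩ := Finset.exists_ne_map_eq_of_card_lt_of_maps_to
    (by rw [Finset.card_range]; exact hcard) hmap
  have hx3 : x ≤ 2 * a + 1 := by
    have := Finset.mem_range.1 (Finset.mem_filter.1 hx).1; omega
  have hx3' : x' ≤ 2 * a + 1 := by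
    have := Finset.mem_range.1 (Finset.mem_filter.1 hx').1; omega
  have hP' := hP x' hx'
  rw [← heq] at hP'
  refine hF0 x x' (y x) hx3 hx3' hne (hy x hx) (P x) (P x') (hP x hx) hP' ?_
  refine ⟨wG ω, hext, rfl, fun f hf => ?_⟩
  rcases Finset.mem_union.1 hf with hf | hf
  · rcases Finset.mem_union.1 hf with hf | hf
    · exact w0 f hf
    · exact hPh x hx f hf
  · exact hPh x' hx' f hf

/-- falsity goes down: a consistent branch of an instance of a false disjunction -/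
theorem down {k n h m : ℕ} {ρ : Res k n} {Tx : ℕ → Tree k n} {T : Tree k n}
    {F0 S : Finset (Fact k n)} (hT : OrRep ρ h m Tx T) (hF0 : Br T F0 false) (hsub : F0 ⊆ S)
    (hV : ∀ f ∈ S, Valid f) (hS : Con ρ S) (x : ℕ) (hx : x ≤ m) (hx' : HLe h (Tx x))
    (hk : 2 * (S.card + 9 * h) + 3 ≤ k) (hI : S.card + 9 * h + 3 ≤ ρ.I.card) :
    ∃ G, Br (Tx x) G false ∧ Con ρ (S ∪ G) ∧ G.card ≤ 9 * h ∧ ∀ f ∈ G, Valid f := by
  obtain ⟨G, r, hG, hC⟩ := pf_Ext k n h ρ S (Tx x) hV hS hx' hk hI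
  obtain ⟨c1, v1⟩ := pf_BrBasic k n h (Tx x) G r hx' hG
  cases r with
  | true =>
    exact absurd (FinInd_con_mono (Finset.union_subset_union_left hsub) hC)
      (hT.2.2 F0 hF0 x hx G hG)
  | false => exact ⟨G, hG, hC, c1, v1⟩

/-! ### The two formulas -/

/-- the term `2 a + 1`, where `a` is the variable `i` -/
def twoT {v : ℕ} (i : Fin v) : Tm v := .succ (.add (.var i) (.var i))

/-- substitution for `φ (x, y, e)` in the context `(y, x, a, e)` -/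
def sg1 (v : ℕ) : Fin (v + 2) → Tm (v + 3) :=
  Fin.cons (.var 1) (Fin.cons (.var 0) fun i => .var i.succ.succ.succ)

/-- substitution for `φ (x, y, e)` in the context `(y, x', x, a, e)` -/
def sg2 (v : ℕ) : Fin (v + 2) → Tm (v + 4) :=
  Fin.cons (.var 2) (Fin.cons (.var 0) fun i => .var i.succ.succ.succ.succ)

/-- substitution for `φ (x', y, e)` in the context `(y, x', x, a, e)` -/
def sg3 (v : ℕ) : Fin (v + 2) → Tm (v + 4) :=
  Fin.cons (.var 1) (Fin.cons (.var 0) fun i => .var i.succ.succ.succ.succ)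

/-- `∃ x ≤ 2 a + 1, ¬ ∃ y ≤ a, φ (x, y, e)` in the context `(a, e)` -/
def psN {v : ℕ} (φ : Fm (v + 2)) : Fm (v + 1) :=
  .bex (twoT 0) (.neg (.bex (.var 1) (φ.sub (v + 3) (sg1 v))))

/-- `∃ x ≤ 2 a + 1, ∃ x' ≤ 2 a + 1, ∃ y ≤ a, x ≠ x' ∧ φ (x, y, e) ∧ φ (x', y, e)` in the
context `(a, e)` -/
def psC {v : ℕ} (φ : Fm (v + 2)) : Fm (v + 1) :=
  .bex (twoT 0) (.bex (twoT 1) (.bex (.var 2) (.and (.neg (.eq (.var 2) (.var 1)))
    (.and (φ.sub (v + 4) (sg2 v)) (φ.sub (v + 4) (sg3 v))))))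

theorem sg1_val {M : Type} (N : Str M) {v : ℕ} (y x a : M) (e : Fin v → M) :
    (fun i => (sg1 v i).val N (Fin.cons y (Fin.cons x (Fin.cons a e)))) =
      (Fin.cons x (Fin.cons y e) : Fin (v + 2) → M) := by
  funext i
  refine Fin.cases ?_ (fun i => Fin.cases ?_ (fun i => ?_) i) i <;> simp [sg1, Tm.val]

theorem sg2_val {M : Type} (N : Str M) {v : ℕ} (y x' x a : M) (e : Fin v → M) :
    (fun i => (sg2 v i).val N (Fin.cons y (Fin.cons x' (Fin.cons x (Fin.cons a e))))) =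
      (Fin.cons x (Fin.cons y e) : Fin (v + 2) → M) := by
  funext i
  refine Fin.cases ?_ (fun i => Fin.cases ?_ (fun i => ?_) i) i <;> simp [sg2, Tm.val]
  rfl

theorem sg3_val {M : Type} (N : Str M) {v : ℕ} (y x' x a : M) (e : Fin v → M) :
    (fun i => (sg3 v i).val N (Fin.cons y (Fin.cons x' (Fin.cons x (Fin.cons a e))))) =
      (Fin.cons x' (Fin.cons y e) : Fin (v + 2) → M) := by
  funext i
  refine Fin.cases ?_ (fun i => Fin.cases ?_ (fun i => ?_) i) i <;> simp [sg3, Tm.val]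

theorem twoT_val {M : Type} (N : Str M) {v : ℕ} (i : Fin v) (e : Fin v → M) :
    (twoT i).val N e = N.succ (N.add (e i) (e i)) := rfl

/-- The core: false branches of the trees for `psN φ` and `psC φ` at `(a, e)` which are true in
`gw ρ N` and `gw ρ N'` do not exist. -/
theorem core {k n h v : ℕ} (ρ : Res k n) (N N' : ℕ) (φ : Fm (v + 2)) (a : ℕ) (e : Fin v → ℕ)
    (Tn Tc : Tree k n) (F1 F0 : Finset (Fact k n))
    (hn : Rep ρ h (psN φ).toGm (Fin.cons a e) Tn) (hc : Rep ρ h (psC φ).toGm (Fin.cons a e) Tc)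
    (hF1 : Br Tn F1 false) (hF0 : Br Tc F0 false)
    (h1 : ∀ f ∈ F0 ∪ F1, holds (gw ρ N) f) (h2 : ∀ f ∈ F0 ∪ F1, holds (gw ρ N') f)
    (hNN : N + 18 * h + 1 ≤ N') (hk : N' + 2 * (63 * h) + 3 < k) (hI : 63 * h + 3 ≤ ρ.I.card) :
    False := by
  have two : (twoT (0 : Fin (v + 1))).val stdN (Fin.cons a e : Fin (v + 1) → ℕ) = 2 * a + 1 := by
    show a + a + 1 = 2 * a + 1
    ring
  obtain ⟨Ex, hE1, hE2⟩ := hn
  rw [two] at hE1 hE2
  -- the trees for `∃ y ≤ a, φ (x, y, e)`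
  have hE3 : ∀ x, ∃ E, x ≤ 2 * a + 1 → Ex x = E.flip ∧ ∃ Ty : ℕ → Tree k n,
      (∀ y, y ≤ a → Rep ρ h φ.toGm (Fin.cons x (Fin.cons y e)) (Ty y)) ∧ OrRep ρ h a Ty E := by
    intro x
    by_cases hx : x ≤ 2 * a + 1
    · obtain ⟨E, hE, Ty, hy1, hy2⟩ := hE1 x hx
      have hb : (Tm.var (1 : Fin (v + 1 + 1))).val stdN (Fin.cons x (Fin.cons a e)) = a := rfl
      rw [hb] at hy1 hy2
      refine ⟨E, fun _ => ⟨hE, Ty, fun y hy => ?_, hy2⟩⟩
      have h3 := (rep_sub ρ φ _ _ _ _).1 (hy1 y hy)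
      rw [sg1_val] at h3
      exact h3
    · exact ⟨.leaf true, fun h => absurd h hx⟩
  choose E hE4 using hE3
  have hE5 : ∀ x, ∃ Ty : ℕ → Tree k n, x ≤ 2 * a + 1 →
      (∀ y, y ≤ a → Rep ρ h φ.toGm (Fin.cons x (Fin.cons y e)) (Ty y)) ∧
        OrRep ρ h a Ty (E x) := by
    intro x
    by_cases hx : x ≤ 2 * a + 1
    · obtain ⟨-, Ty, h3, h4⟩ := hE4 x hx
      exact ⟨Ty, fun _ => ⟨h3, h4⟩⟩
    · exact ⟨fun _ => .leaf true, fun h => absurd h hx⟩
  choose T hT using hE5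
  have hN : OrRep ρ h (2 * a + 1) (fun x => (E x).flip) Tn := by
    refine ⟨hE2.1, fun F hF hC => ?_, fun F hF x hx F' hF' => ?_⟩
    · obtain ⟨x, hx, F', hF', hd⟩ := hE2.2.1 F hF hC
      refine ⟨x, hx, F', ?_, hd⟩
      show Br (E x).flip F' true
      rw [← (hE4 x hx).1]
      exact hF'
    · have hF'' : Br (E x).flip F' true := hF'
      rw [← (hE4 x hx).1] at hF''
      exact hE2.2.2 F hF x hx F' hF''
  -- sizes
  obtain ⟨c0, v0⟩ := pf_BrBasic k n h Tc F0 false (pf_RepHLe _ _ _ _ _ _ _ _ hc) hF0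
  obtain ⟨c1, v1⟩ := pf_BrBasic k n h Tn F1 false hE2.1 hF1
  have hcard : (F0 ∪ F1).card ≤ 18 * h := by
    have := Finset.card_union_le F0 F1
    omega
  have hval : ∀ f ∈ F0 ∪ F1, Valid f := fun f hf => (Finset.mem_union.1 hf).elim (v0 f) (v1 f)
  have hA : ∃ ω, Adm ρ (F0 ∪ F1) N' ω :=
    adm_exists ρ N N' (F0 ∪ F1) hval h1 h2 (by omega) (by omega) (by omega)
  refine finW (h := h) (a := a) (d := N') ρ T E Tn F0 F1 (fun x hx => (hT x hx).2) hN hF1 ?_ hA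
    (by omega) (by omega)
  -- collisions
  intro x x' y hx hx' hne hy P P' hP hP' hC
  have hTx : Rep ρ h φ.toGm (Fin.cons x (Fin.cons y e)) (T x y) := (hT x hx).1 y hy
  have hTx' : Rep ρ h φ.toGm (Fin.cons x' (Fin.cons y e)) (T x' y) := (hT x' hx').1 y hy
  obtain ⟨cp, vp⟩ := pf_BrBasic k n h _ P true (pf_RepHLe _ _ _ _ _ _ _ _ hTx) hP
  obtain ⟨cp', vp'⟩ := pf_BrBasic k n h _ P' true (pf_RepHLe _ _ _ _ _ _ _ _ hTx') hP'
  have hS : (F0 ∪ P ∪ P').card ≤ 27 * h := by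
    have e1 := Finset.card_union_le (F0 ∪ P) P'
    have e2 := Finset.card_union_le F0 P
    omega
  have hSv : ∀ f ∈ F0 ∪ P ∪ P', Valid f := by
    intro f hf
    simp only [Finset.mem_union] at hf
    rcases hf with (hf | hf) | hf
    · exact v0 f hf
    · exact vp f hf
    · exact vp' f hf
  -- first quantifier
  obtain ⟨Cx, hC1, hC2⟩ := hc
  rw [two] at hC1 hC2
  have hC3 := hC1 x hx
  obtain ⟨G1, g1, g2, g3, g4⟩ := down hC2 hF0
    (Finset.subset_union_left.trans Finset.subset_union_left) hSv hC x hx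
    (pf_RepHLe _ _ _ _ _ _ _ _ hC3) (by omega) (by omega)
  -- second quantifier
  obtain ⟨Cy, hD1, hD2⟩ := hC3
  have two' : (twoT (1 : Fin (v + 1 + 1))).val stdN
      (Fin.cons x (Fin.cons a e : Fin (v + 1) → ℕ) : Fin (v + 1 + 1) → ℕ) = 2 * a + 1 := by
    show a + a + 1 = 2 * a + 1
    ring
  rw [two'] at hD1 hD2
  have hD3 := hD1 x' hx'
  have hS1 : (F0 ∪ P ∪ P' ∪ G1).card ≤ 36 * h := by
    have e1 := Finset.card_union_le (F0 ∪ P ∪ P') G1
    omega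
  obtain ⟨G2, k1, k2, k3, k4⟩ := down hD2 g1 Finset.subset_union_right
    (fun f hf => (Finset.mem_union.1 hf).elim (hSv f) (g4 f)) g2 x' hx'
    (pf_RepHLe _ _ _ _ _ _ _ _ hD3) (by omega) (by omega)
  -- third quantifier
  obtain ⟨Cz, hH1, hH2⟩ := hD3
  have hb : (Tm.var (2 : Fin (v + 1 + 1 + 1))).val stdN
      (Fin.cons x' (Fin.cons x (Fin.cons a e : Fin (v + 1) → ℕ) : Fin (v + 1 + 1) → ℕ) :
        Fin (v + 1 + 1 + 1) → ℕ) = a := rfl
  rw [hb] at hH1 hH2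
  have hH3 := hH1 y hy
  have hS2 : (F0 ∪ P ∪ P' ∪ G1 ∪ G2).card ≤ 45 * h := by
    have e1 := Finset.card_union_le (F0 ∪ P ∪ P' ∪ G1) G2
    omega
  obtain ⟨G3, l1, l2, l3, l4⟩ := down hH2 k1 Finset.subset_union_right
    (fun f hf => (Finset.mem_union.1 hf).elim
      (fun hf => (Finset.mem_union.1 hf).elim (hSv f) (g4 f)) (k4 f)) k2 y hy
    (pf_RepHLe _ _ _ _ _ _ _ _ hH3) (by omega) (by omega)
  -- the matrix
  obtain ⟨-, T1, T2, hT12, ⟨T5, hT5, hT6⟩, hT2⟩ := hH3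
  obtain ⟨-, T3, T4, rfl, hT3, hT4⟩ := hT2
  have h3 := (rep_sub ρ φ _ _ _ _).1 hT3
  rw [sg2_val] at h3
  have h4 := (rep_sub ρ φ _ _ _ _).1 hT4
  rw [sg3_val] at h4
  have h5 : T1 = .leaf true := by
    have h6 : T5 = .leaf (decide (x = x')) := hT6
    rw [hT5, h6, decide_eq_false hne]
    rfl
  rw [hT12, h5] at l1
  have l1' : Br (andT T3 T4) G3 false := l1
  have hsub1 : P ⊆ F0 ∪ P ∪ P' ∪ G1 ∪ G2 := by
    intro f hf
    simp only [Finset.mem_union]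
    tauto
  have hsub2 : P' ⊆ F0 ∪ P ∪ P' ∪ G1 ∪ G2 := by
    intro f hf
    simp only [Finset.mem_union]
    tauto
  rcases ((prf_BrAnd k n T3 T4).2.1 G3).1 l1' with h7 | ⟨F3, F4, h7, h8, rfl⟩
  · exact agree ρ (by omega) (by omega) φ.toGm _ (T x y) T3 hTx h3 P G3 hP h7
      (FinInd_con_mono (Finset.union_subset_union_left hsub1) l2)
  · refine agree ρ (by omega) (by omega) φ.toGm _ (T x' y) T4 hTx' h4 P' F4 hP' h8
      (FinInd_con_mono ?_ l2)
    intro f hf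
    simp only [Finset.mem_union] at hf ⊢
    tauto

end Pool.Agent.Work.MP_610017_lc.WP
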