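import Mathlib
import Pool.Agent.Work.MP_610017_lc.Logic

/-!
# The weak pigeonhole principle for bounded formulas (MP_610017_lc)
-/

set_option autoImplicit false

namespace Pool.Agent.Work.MP_610017_lc

/-- The weak pigeonhole principle for all bounded formulas `φ` (the relation symbol `R` may occur)
with parameters `e`: every relation `φ (x, y)` between `{x | x ≤ 2 a + 1}` and `{y | y ≤ a}` such
that every `x` has some `y` has a collision, two different `x`, `x'` with the same `y`. -/
def WPHP {M : Type} (N : Str M) : Prop :=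
  ∀ (v : ℕ) (φ : Fm (v + 2)) (e : Fin v → M) (a : M),
    (∀ x, N.le x (N.succ (N.add a a)) → ∃ y, N.le y a ∧ φ.sat N (Fin.cons x (Fin.cons y e))) →
    ∃ x x' y, N.le x (N.succ (N.add a a)) ∧ N.le x' (N.succ (N.add a a)) ∧ x ≠ x' ∧
      N.le y a ∧ φ.sat N (Fin.cons x (Fin.cons y e)) ∧ φ.sat N (Fin.cons x' (Fin.cons y e))

end Pool.Agent.Work.MP_610017_lc
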