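import Mathlib
import Pool.Agent.Work.MP_610017_lc.WP.Def
import Pool.Agent.Work.MP_610017_lc.WP.Core

/-!
# Block WP: the weak pigeonhole principle in the model (MP_610017_lc)
-/

set_option autoImplicit false

namespace Pool.Agent.Work.MP_610017_lc.WP

theorem psN_sat {M : Type} (N : Str M) {v : ℕ} (φ : Fm (v + 2)) (a : M) (e : Fin v → M) :
    (psN φ).sat N (Fin.cons a e) ↔ ∃ x, N.le x (N.succ (N.add a a)) ∧
      ¬ ∃ y, N.le y a ∧ φ.sat N (Fin.cons x (Fin.cons y e)) := by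
  simp only [psN, Fm.sat, Fm.sat_sub, sg1_val]
  rfl

theorem psC_sat {M : Type} (N : Str M) {v : ℕ} (φ : Fm (v + 2)) (a : M) (e : Fin v → M) :
    (psC φ).sat N (Fin.cons a e) ↔ ∃ x, N.le x (N.succ (N.add a a)) ∧
      ∃ x', N.le x' (N.succ (N.add a a)) ∧ ∃ y, N.le y a ∧ ¬ x = x' ∧
        φ.sat N (Fin.cons x (Fin.cons y e)) ∧ φ.sat N (Fin.cons x' (Fin.cons y e)) := by
  simp only [psC, Fm.sat, Fm.sat_sub, sg2_val, sg3_val]
  rfl

/-- trees for a formula which is false in the model: branches in two coverings -/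
theorem false_branch (s : SD) {v : ℕ} (φ : Gm v) (R : Fin v → BSeq s)
    (h : ¬ φ.sat (MStr s) (fun j => MM.mk (R j))) :
    ∃ h0 N0 : ℕ, ∀ H, h0 ≤ H → ∀ N N', N0 ≤ N → N0 ≤ N' → ∀ᶠ i in UU,
      ∃ (T : Tree (s.kk i) (s.nn i)) (F : Finset (Fact (s.kk i) (s.nn i))),
        Rep (s.ρ i) H φ (fun j => (R j).1 i) T ∧ Br T F false ∧
        (∀ f ∈ F, holds (gw (s.ρ i) N) f) ∧ ∀ f ∈ F, holds (gw (s.ρ i) N') f := by
  obtain ⟨J, hJ⟩ : ∃ J, ∀ᶠ i in UU, ∀ j, (R j).1 i ≤ (s.nn i + 1) ^ J := by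
    have h1 := fun j => (R j).2
    choose J hJ using h1
    refine ⟨Finset.univ.sup J, Filter.eventually_all.2 fun j => ?_⟩
    filter_upwards [hJ j] with i hi
    exact hi.trans (Nat.pow_le_pow_right (Nat.succ_pos _) (Finset.le_sup (Finset.mem_univ j)))
  obtain ⟨h0, i0, hex⟩ := s.ex v φ J
  have hch : ∀ i, ∃ T : Tree (s.kk i) (s.nn i),
      (∃ T, Rep (s.ρ i) h0 φ (fun j => (R j).1 i) T) →
        Rep (s.ρ i) h0 φ (fun j => (R j).1 i) T := by
    intro i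
    by_cases hc : ∃ T, Rep (s.ρ i) h0 φ (fun j => (R j).1 i) T
    · obtain ⟨T, hT⟩ := hc
      exact ⟨T, fun _ => hT⟩
    · exact ⟨.leaf true, fun h => absurd h hc⟩
  choose T hT using hch
  have hP : ∀ᶠ i in UU, Rep (s.ρ i) h0 φ (fun j => (R j).1 i) (T i) := by
    filter_upwards [hJ, UU_ge i0] with i hi hi0
    exact hT i (hex i hi0 _ hi)
  have hT0 : ¬ EvT s T := fun hev => h ((pf_Truth s v φ h0 R T hP).2 hev)
  have hh : ∀ᶠ i in UU, HLe h0 (T i) := hP.mono fun i hi => pf_RepHLe _ _ _ _ _ _ _ _ hi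
  obtain ⟨N0, hN0⟩ := prf_Stab s h0 T hh
  refine ⟨h0, N0, fun H hH N N' hN hN' => ?_⟩
  filter_upwards [hP, hh, hN0 N hN, hN0 N' hN', IndM_false s T N0 hN0 hT0 N hN] with
    i p1 p2 p3 p4 p5
  obtain ⟨F, f1, f2, f3, -⟩ := IndM_branch prf_Ev pf_BrBasic (s.ρ i) N N' (T i) p2
    (by rw [p3, p4]) false p5
  exact ⟨T i, F, pf_RepMono _ _ _ _ _ _ _ _ _ _ (Exist_refl _) hH p1, f1, f2, f3⟩

/-- The model satisfies the weak pigeonhole principle for all bounded formulas. -/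
theorem wphp (s : SD) : WPHP (MStr s) := by
  intro v φ e a hall
  by_contra hcol
  obtain ⟨r, rfl⟩ := MM.reps e
  obtain ⟨ra, rfl⟩ : ∃ ra : BSeq s, a = MM.mk ra :=
    ⟨Quotient.out a, (Quotient.out_eq a).symm⟩
  set R : Fin (v + 1) → BSeq s := Fin.cons ra r with hR
  have hRsat : (fun j => MM.mk (R j)) = (Fin.cons (MM.mk ra) (fun j => MM.mk (r j)) :
      Fin (v + 1) → MM s) := by
    funext j
    refine Fin.cases rfl (fun j => rfl) j
  have hRval : ∀ i, (fun j => (R j).1 i) =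
      (Fin.cons (ra.1 i) (fun j => (r j).1 i) : Fin (v + 1) → ℕ) := by
    intro i
    funext j
    refine Fin.cases rfl (fun j => rfl) j
  have hn : ¬ (psN φ).toGm.sat (MStr s) (fun j => MM.mk (R j)) := by
    rw [hRsat, Fm.sat_toGm, psN_sat]
    rintro ⟨x, hx, hx2⟩
    exact hx2 (hall x hx)
  have hc : ¬ (psC φ).toGm.sat (MStr s) (fun j => MM.mk (R j)) := by
    rw [hRsat, Fm.sat_toGm, psC_sat]
    rintro ⟨x, hx, x', hx', y, hy, hne, h1, h2⟩
    exact hcol ⟨x, x', y, hx, hx', hne, hy, h1, h2⟩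
  obtain ⟨h1, N1, H1⟩ := false_branch s (psN φ).toGm R hn
  obtain ⟨h2, N2, H2⟩ := false_branch s (psC φ).toGm R hc
  set h := max h1 h2 with hh
  set N := max N1 N2 with hN
  set N' := N + 18 * h + 1 with hN'
  apply UU_false
  filter_upwards [H1 h (le_max_left _ _) N N' (le_max_left _ _)
      ((le_max_left N1 N2).trans (by omega)),
    H2 h (le_max_right _ _) N N' (le_max_right _ _) ((le_max_right N1 N2).trans (by omega)),
    UU_ge (N' + 2 * (63 * h) + 3 + 1 + (63 * h + 3))] with i p1 p2 hi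
  obtain ⟨Tn, F1, a1, a2, a3, a4⟩ := p1
  obtain ⟨Tc, F0, b1, b2, b3, b4⟩ := p2
  have hk := s.le_kk i
  have hI := s.le_I i
  rw [hRval i] at a1 b1
  exact core (s.ρ i) N N' φ (ra.1 i) (fun j => (r j).1 i) Tn Tc F1 F0 a1 b1 a2 b2
    (fun f hf => (Finset.mem_union.1 hf).elim (b3 f) (a3 f))
    (fun f hf => (Finset.mem_union.1 hf).elim (b4 f) (a4 f)) (by omega) (by omega) (by omega)

end Pool.Agent.Work.MP_610017_lc.WP
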