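import Mathlib
import Pool.Agent.Work.MP_610017_lc.General
import Pool.Agent.Work.MP_610017_lc.WP.Mod

/-!
# The main theorems with the weak pigeonhole principle (MP_610017_lc)
-/

set_option autoImplicit false

namespace Pool.Agent.Work.MP_610017_lc

/-- The main theorem, with the weak pigeonhole principle. -/
def S_MainW : Prop := ∃ θ : Fm 2,
  (∀ (M : Type) (N : Str M), IDelta0 N → Omega1 N → ∀ e, θ.sat N e) ∧
  ∃ (M : Type) (N : Str M), IDelta0 N ∧ WPHP N ∧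
    (∀ (v : ℕ) (φ : Fm v), φ.RFree → (∀ e, φ.sat stdN e) → ∀ e, φ.sat N e) ∧
    ∃ e, ¬ θ.sat N e

theorem pf_MainW : S_MainW := by
  obtain ⟨θ, hθ⟩ := prf_Theta
  refine ⟨θ, ?_, ?_⟩
  · intro M N h1 h2 e
    rw [hθ]
    exact pf_Upper M N h1 h2 _ _
  · obtain ⟨s⟩ := pf_Seq
    refine ⟨MM s, MStr s, ⟨prf_RobM s, pf_IndM s⟩, WP.wphp s, prf_LosM prf_TmVal s,
      ![nM s, kM s], ?_⟩
    rw [hθ]
    obtain ⟨a1, a2, a3, a4, a5, a6, a7⟩ := prf_HypA prf_Rels s _ rfl _ _ rfl rfl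
    obtain ⟨b1, b2, b3, b4, b5, b6⟩ := prf_HypB prf_Rels s _ rfl _ _ rfl rfl
    have h : Hyp (MStr s) (nM s) (kM s) :=
      ⟨a1, a2, a3, a4, a5, a6, a7, b1, b2, b3, b4, b5, b6⟩
    exact not_not_intro h

/-! ### The theorem -/

/-- The general form, with the weak pigeonhole principle. -/
def S_GeneralW : Prop := ∃ θ : Fm 2,
  (∀ (M : Type) (N : Str M), IDelta0 N → ∀ (e : Fin 2 → M) (z : M), IsPow N (e 0) (e 1) z →
    θ.sat N e) ∧
  ∀ g : ℕ → ℕ, Filter.Tendsto g Filter.atTop Filter.atTop → (∀ x, 1 ≤ x → 2 ^ g x ≤ x) →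
    ∃ (M : Type) (N : Str M), IDelta0 N ∧ WPHP N ∧
      (∀ (v : ℕ) (φ : Fm v), φ.RFree → (∀ e : Fin v → ℕ, φ.sat stdN e) →
        ∀ e : Fin v → M, φ.sat N e) ∧
      ∃ e : Fin 2 → M, ¬ θ.sat N e ∧
        ∀ φ : Fm 2, φ.RFree → (∃ x0, ∀ x, x0 ≤ x → φ.sat stdN ![x, g x]) → φ.sat N e

theorem pf_GeneralW : S_GeneralW := by
  refine ⟨.neg gen_conj, ?_, fun g hg1 hg2 => ?_⟩
  · intro M N hN e z hz
    rw [gen_theta]
    intro hc
    obtain ⟨i1, i2, i3, hG⟩ := pf_Alg M N hN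
    obtain ⟨f, hf, _⟩ := prf_PowF M N hG (e 0) (e 1) z hz
    exact pf_UpperG M N hG (e 0) (e 1) (e 1) f hc le_rfl hf
  · obtain ⟨s, hs⟩ := gen_seq pf_Exist prf_Countable pf_RepMono g
      (fun K => Filter.eventually_atTop.1 (hg1.eventually_ge_atTop K)) hg2
    refine ⟨MM s, MStr s, ⟨prf_RobM s, pf_IndM s⟩, WP.wphp s, prf_LosM prf_TmVal s, ![nM s, kM s], ?_, ?_⟩
    · rw [gen_theta, not_not]
      obtain ⟨a1, a2, a3, a4, a5, a6, a7⟩ := prf_HypA prf_Rels s _ rfl _ _ rfl rfl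
      obtain ⟨b1, b2, b3, b4, b5, b6⟩ := prf_HypB prf_Rels s _ rfl _ _ rfl rfl
      refine ⟨?_, a1, a5, a6, a7, b1, b2, b3, b4, b5, b6⟩
      show (MStr s).lt (MStr s).zero (nM s)
      rw [MStr_zero, nM, MStr_lt]
      exact Filter.Eventually.of_forall fun i => Nat.succ_pos _
    · intro γ hγ1 hγ2
      obtain ⟨x0, hx0⟩ := hγ2
      have h1 : (![nM s, kM s] : Fin 2 → MM s) = fun j => MM.mk
          ((![⟨fun i => s.nn i + 1, 1, Filter.Eventually.of_forall fun i => by simp⟩,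
            ⟨fun i => s.kk i, 1, Filter.Eventually.of_forall fun i => by
              have h1 := s.pow_le i
              have h2 : s.kk i < 2 ^ s.kk i := Nat.lt_two_pow_self
              rw [pow_one]
              exact h2.le.trans h1⟩] : Fin 2 → BSeq s) j) := by
        funext j
        fin_cases j <;> rfl
      rw [h1, LosM_main prf_TmVal s γ hγ1]
      filter_upwards [UU_ge x0] with i hi
      have h2 := hx0 (s.nn i + 1) (by
        have h3 := s.pow_le i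
        have h4 := s.le_kk i
        have h5 : s.kk i < 2 ^ s.kk i := Nat.lt_two_pow_self
        omega)
      refine (iff_of_eq (congrArg (γ.sat stdN) ?_)).1 h2
      funext j
      fin_cases j
      · rfl
      · exact (hs i).symm

end Pool.Agent.Work.MP_610017_lc
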